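import Mathlib
import Pool.Agent.Helper23_LAP.Stmts

set_option autoImplicit false

namespace Pool.Agent.LAP.H32

open scoped Classical

open Pool.Agent.LAP

/-- A site of the closure of `Q` is adjacent to `Q`. -/
theorem near_clA {α β : Type} [Fintype α] [Fintype β] {E : Finset (α × β)} {t : ℕ} (ht : 1 ≤ t)
    {Q : Finset (α ⊕ β)} {x : α} (hx : x ∈ clA E t Q) : ∃ z ∈ Q, sadj E (Sum.inl x) z := by
  simp only [clA, clO, Finset.mem_filter, Finset.mem_univ, true_and] at hx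
  obtain ⟨y, hy⟩ := Finset.card_pos.mp (lt_of_lt_of_le ht hx)
  simp only [out, rp, Finset.mem_inter, Finset.mem_filter, Finset.mem_univ, true_and] at hy
  exact ⟨Sum.inr y, hy.2, hy.1⟩

theorem near_clB {α β : Type} [Fintype α] [Fintype β] {E : Finset (α × β)} {t : ℕ} (ht : 1 ≤ t)
    {Q : Finset (α ⊕ β)} {y : β} (hy : y ∈ clB E t Q) : ∃ z ∈ Q, sadj E (Sum.inr y) z := by
  simp only [clB, clI, Finset.mem_filter, Finset.mem_univ, true_and] at hy
  obtain ⟨x, hx⟩ := Finset.card_pos.mp (lt_of_lt_of_le ht hy)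
  simp only [inn, lp, Finset.mem_inter, Finset.mem_filter, Finset.mem_univ, true_and] at hx
  exact ⟨Sum.inl x, hx.2, hx.1⟩

theorem near_crs {α β : Type} [Fintype α] [Fintype β] {E R : Finset (α × β)} {X : Finset α}
    {Y : Finset β} {t : ℕ} (ht : 1 ≤ t) (hR : R ⊆ E) {Q : Finset (α ⊕ β)} {a : α × β}
    (ha : a ∈ crs R X Y (clA E t Q) (clB E t Q)) :
    a ∈ E ∧ ∃ z ∈ Q, nr3 (sadj E) (Sum.inl a.1) z := by
  simp only [crs, ain, aou, Finset.mem_union, Finset.mem_filter] at ha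
  rcases ha with ⟨h1, -, -, h2⟩ | ⟨h1, ⟨-, h2⟩, -, -⟩
  · obtain ⟨z, hz, hs⟩ := near_clB ht h2
    refine ⟨hR h1, z, hz, Sum.inr a.2, z, Or.inr ?_, Or.inr hs, Or.inl rfl⟩
    exact hR h1
  · obtain ⟨z, hz, hs⟩ := near_clA ht h2
    exact ⟨hR h1, z, hz, z, z, Or.inr hs, Or.inl rfl, Or.inl rfl⟩

theorem lb1 (hT : THUStmt) : LB1Stmt := by
  intro k L q D δ η r T Rr ζ P P' hP α β _ _ E R X Y slot hCl hRr c Q hQ
  have hL0 : (0 : ℝ) < L := by
    have : 0 < L := lt_of_lt_of_le (by norm_num) hP.L4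
    exact_mod_cast this
  have hD0 : 0 < D := lt_of_lt_of_le (by positivity) hP.D1
  have hP0 : 0 < P := by
    rcases Nat.eq_zero_or_pos P with h | h
    · have := hP.P2
      rw [h] at this
      simp at this
      linarith
    · exact h
  have : Nonempty (Fin P) := ⟨⟨0, hP0⟩⟩
  have ht1 : 1 ≤ L ^ 2 := Nat.one_le_pow _ _ (lt_of_lt_of_le (by norm_num) hP.L4)
  set I := crs R (X c) (Y c) (clA E (L ^ 2) Q) (clB E (L ^ 2) Q) with hI
  have hIR : ∀ a ∈ I, a ∈ R := by
    intro a ha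
    simp only [hI, crs, ain, aou, Finset.mem_union, Finset.mem_filter] at ha
    rcases ha with h | h <;> exact h.1
  set g : α × β → Finset (Fin P) := fun a =>
    (Finset.univ.filter fun c => a.1 ∈ X c ∧ a.2 ∈ Y c).image (fun c => slot c a) with hg
  have hcard : ∀ ω : α × β → Fin P, ((I ∩ allS (smO R X Y slot ω)).card : ℝ) =
      ∑ a ∈ I, if ω a ∈ g a then (1 : ℝ) else 0 := by
    intro ω
    rw [← Finset.sum_filter, Finset.sum_const, nsmul_eq_mul, mul_one]
    congr 2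
    ext a
    simp only [allS, smO, hg, Finset.mem_inter, Finset.mem_biUnion, Finset.mem_univ, true_and,
      Finset.mem_filter, Finset.mem_image]
    constructor
    · rintro ⟨h1, d, -, h2, h3⟩
      exact ⟨h1, d, h2, h3.symm⟩
    · rintro ⟨h1, d, h2, h3⟩
      exact ⟨h1, d, hIR a h1, h2, h3.symm⟩
  have hPR : (0 : ℝ) < P := by exact_mod_cast hP0
  refine Or.inr ⟨hQ, ⟨I, ?_, ?_⟩, ?_⟩
  · intro ω ω' h hω
    simp only [Set.mem_ofPred_eq] at hω ⊢
    rw [hcard] at hω ⊢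
    have : (∑ a ∈ I, if ω' a ∈ g a then (1 : ℝ) else 0) =
        ∑ a ∈ I, if ω a ∈ g a then (1 : ℝ) else 0 :=
      Finset.sum_congr rfl fun a ha => by rw [h a ha]
    rw [this]
    exact hω
  · intro a ha
    obtain ⟨h1, z, hz, h2⟩ := near_crs ht1 (hCl c).sub ha
    exact ⟨Sum.inl a.1, by simp [locM, h1], z, hz, h2⟩
  · have hμ : ∑ a ∈ I, (1 : ℝ) * (((g a).card : ℝ) / (Fintype.card (Fin P) : ℝ)) ≤
        Rr / P * I.card := by
      calc ∑ a ∈ I, (1 : ℝ) * (((g a).card : ℝ) / (Fintype.card (Fin P) : ℝ))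
          ≤ ∑ a ∈ I, Rr / P := by
            refine Finset.sum_le_sum fun a ha => ?_
            rw [one_mul, Fintype.card_fin]
            refine div_le_div_of_nonneg_right ?_ hPR.le
            refine le_trans ?_ (hRr a (hIR a ha))
            exact_mod_cast Finset.card_image_le
        _ = Rr / P * I.card := by rw [Finset.sum_const, nsmul_eq_mul, mul_comm]
    have h := hT (α × β) (Fin P) I (fun _ => 1) g 1 1 ((L : ℝ) ^ 2 * Q.card) (Rr / P * I.card)
      one_pos zero_le_one le_rfl (fun _ _ => ⟨zero_le_one, le_rfl⟩) hμ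
    refine le_trans ?_ (le_trans h (le_of_eq (by ring_nf)))
    unfold pr
    refine div_le_div_of_nonneg_right ?_ (Nat.cast_nonneg _)
    refine Nat.cast_le.mpr (Finset.card_le_card ?_)
    intro ω hω
    simp only [Finset.mem_filter, Finset.mem_univ, true_and, Set.mem_ofPred_eq, not_le] at hω ⊢
    rw [hcard] at hω
    refine le_trans ?_ (le_trans hω.le (le_of_eq (by congr!)))
    have hR1 : Rr / P ≤ 1 / (4 * (L : ℝ) ^ 4) := by
      rw [div_le_div_iff₀ hPR (by positivity)]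
      linarith [hP.R1]
    have hc : cq E R (X c) (Y c) L Q = I.card := rfl
    rw [hc]
    have h3 : (1 + 1) * (Rr / P * (I.card : ℝ)) ≤ 1 / (L : ℝ) ^ 4 * I.card := by
      have h4 : Rr / P * (I.card : ℝ) ≤ 1 / (4 * (L : ℝ) ^ 4) * I.card :=
        mul_le_mul_of_nonneg_right hR1 (Nat.cast_nonneg _)
      have h5 : 1 / (4 * (L : ℝ) ^ 4) * (I.card : ℝ) = 1 / (L : ℝ) ^ 4 * I.card / 4 := by
        field_simp
      have h6 : 0 ≤ 1 / (L : ℝ) ^ 4 * (I.card : ℝ) := by positivity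
      rw [h5] at h4
      linarith
    linarith

end Pool.Agent.LAP.H32
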